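import Pool.Agent.MP_c69980_ag.S85.ManyA

/-!
Many sections of bounded weight.
-/

set_option autoImplicit false

namespace Pool.Agent.MP_c69980_ag.H43

open H60 Finset MvPowerSeries

lemma many_cnt (h : SCnt2) {K : Type} [Field K] [Algebra ℂ K] (F : IntermediateField ℂ K)
    {ι : Type} (κ : Type) [Fintype ι] [Fintype κ] (W : Submodule F K) (x : κ → PW ι K) (D : ℕ) :
    Module.Finite F W → LinearIndependent F x → (∀ i m, m.degree ≤ D → coeff m (x i) ∈ W) →
    (∀ p ∈ Submodule.span F (Set.range x), p ≠ 0 → order p ≤ D) →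
    Fintype.card κ ≤ (D + 1) ^ Fintype.card ι * Module.finrank F W := h F K ι κ W x D

theorem sMany (h1 : SDvS) (h2 : SSpan) (h3 : SPole) (h4 : STay) (h5 : SIndP) (h6 : STw)
    (h7 : SOrd) (h8 : SZero) (h9 : SCnt2) : SMany := by
  intro t a M w Θ PP K _ _ u F r lam d f G b₀ g1 gk bx hg no ub
  classical
  let I := {x : Cht M t × ValuationSubring K × (Fin r → CI M t) × K × Fin (r + 1) //
    DvT w u F d x.1 x.2.1 x.2.2.1 x.2.2.2.1 x.2.2.2.2 ∧ x.2.1 ∉ G}
  have ds := fun i : I => h1 _ _ _ w Θ PP K u F r lam d f _ _ _ _ _ bx i.2.1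
  obtain ⟨Ω, _, _, e, τ₀, τ, ind⟩ := h2 K F r f I (fun i => i.1.2.1)
    (fun i => co i.1.1 u ∘ i.1.2.2.1) (fun i l => d l i.1.2.2.2.1) bx.tb (fun i => i.2.1.fV)
    (fun i j => i.2.1.cV _) (fun i l => many_RF i.2.1.fV i.2.1.cV _ ((ds i).pres l _ i.2.1.mem))
    (fun i => i.2.1.res) (fun i => (ds i).alg) fun c c1 c2 => no c c1 fun β V y hD hV h m1 m2 => by
      by_cases e : ∃ l, V.valuation (d l h) = 1
      · obtain ⟨l, hl⟩ := e
        exact c2 ⟨(β, V, y, h, l), ⟨hD, m1, m2, hl⟩, hV⟩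
      · refine V.valuation.map_sum_lt one_ne_zero fun l _ => ?_
        rw [map_mul, mul_comm]
        exact mul_lt_one_of_lt_of_le (lt_of_le_of_ne ((V.valuation_le_one_iff _).2
          (many_RF hD.fV hD.cV _ (many_pres bx hD.ch l h m1))) fun e' => e ⟨l, e'⟩)
          ((V.valuation_le_one_iff _).2 (hD.fV _ (c1 l)))
  choose J H T₀ pole using fun j => h3 _ _ _ w Θ PP K u F r lam d f G _ _ _ _ _ g1 gk bx hg
    (e j).2.1 (ds (e j)) (e j).2.2
  choose T tay using fun j : Fin (r + 1) => h4 K (Fin (r + 1) × Fin (r + 1)) (dj d j)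
    fun i i' x => by
      simp only [dj]
      split_ifs <;> simp [bx.com]
  obtain ⟨l, b, σ, ap, li⟩ := h5 _ _ _ w Θ PP K u F r lam d f (fun j => (e j).1.1)
    (fun j => (e j).1.2.1) (fun j => (e j).1.2.2.1) (fun j => (e j).1.2.2.2.1)
    (fun j => (e j).1.2.2.2.2) Ω τ₀ τ T H g1 gk bx (fun j => ⟨(e j).2.1, ds _⟩) ind tay
    fun j => ⟨(pole j).ne, (pole j).mono⟩
  have wt := fun j => (pole j).wt
  have dg := fun j => (pole j).deg
  clear pole ind τ τ₀ e ds h1 h2 h3 h4 h5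
  obtain ⟨S, e₁, e₂, hS, h0⟩ := gk.sub.ex K u (fun c => algebraMap ℂ K (Θ 0 c)) bx.on
    ⟨fun o => by simpa using g1.blk 0 o, fun P n _ p2 => by
      refine (MvPolynomial.aeval_algebraMap_apply K (Θ 0) P).trans ?_
      rw [MvPolynomial.aeval_eq_eval, p2, map_zero]⟩
  choose ς hς using fun j => (ap j).add S e₁ e₂ hS
  refine ⟨∑ j, e₁ * J j, univ.image u ∪ univ.biUnion T₀, fun N g c st sub => ?_⟩
  choose C₁ hC₁ using fun j => dg j N g c st fun x hx => sub (by
    simp only [coe_union, coe_biUnion, Set.mem_union, Set.mem_iUnion]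
    exact Or.inr ⟨j, mem_univ j, hx⟩)
  have ug : ∀ i, u i ∈ Pol F g 1 := fun i => by
    obtain ⟨n, hn⟩ := sub (a := u i) (by simp)
    exact hn ▸ many_gen n
  obtain ⟨Z, hZ⟩ : ∃ Z, Z = ∏ j, ς j ^ J j := ⟨_, rfl⟩
  have Z1 : constantCoeff Z ≠ 0 := by
    rw [hZ, map_prod]
    exact prod_ne_zero_iff.2 fun j _ => by
      rw [map_pow]; exact pow_ne_zero _ (many_unit (ap j) hS h0 (hς j))
  have Z2 : Z.order = 0 := not_not.1 (mt order_ne_zero_iff_constCoeff_eq_zero.1 Z1)
  have Z0 : Z ≠ 0 := fun e => Z1 (by rw [e, map_zero])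
  obtain ⟨n₀, Z3⟩ : ∃ n, ManyQ F g c n Z := by
    choose n hn using fun j => ManyQ.aev (F := F) (g := g) (c := c) (x := Sum.elim (C ∘ u) (b j))
      (by rintro (i | i); exacts [.const (ug i), .ofF ((ap j).cF i)]) (S b₀)
    refine ⟨_, hZ ▸ ManyQ.prod univ fun j _ => ManyQ.pow (n := n j) ?_ _⟩
    have := hς j b₀
    rw [ub, map_one, mul_one] at this
    exact this ▸ hn j
  have TF : ∀ j, ∀ x ∈ F, T j x = C x := fun j x hx => (tay j).cst x fun i => by
    rw [dj]
    split_ifs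
    exacts [(bx.cst x).1 hx _, rfl]
  have dom : IsDomain (PW (Fin (r + 1) × Fin (r + 1)) K) := NoZeroDivisors.to_isDomain _
  have ord := h7 K F _ _ d f T bx.tb.1 bx.det tay
  set xx : Fin (r + 1) ⊕ Fin (r + 1) × Fin (r + 1) → PW (Fin (r + 1) × Fin (r + 1)) K :=
    Sum.elim (fun l => C (f l)) fun q => T q.1 (f q.2) - C (f q.2) with hxx
  have xm : ∀ i, xx i ∈ Algebra.adjoin F (Set.range xx) := fun i => Algebra.subset_adjoin ⟨i, rfl⟩
  have a0 : ∀ x : K, IsAlgebraic (Algebra.adjoin F (Set.range xx)) (C x : PW _ K) := fun x =>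
    many_isAlg (F := F) (A := K) (g := f) (manyHom (F := F) C fun _ _ => rfl) C_injective
      (fun l => xm (.inl l))
      (bx.tb.isAlgebraic.isAlgebraic x)
  have a1 : ∀ j x, IsAlgebraic (Algebra.adjoin F (Set.range xx)) (T j x) := fun j x =>
    many_isAlg (F := F) (A := K) (g := f) (manyHom (T j) (TF j)) (T j).injective
      (fun l => (sub_add_cancel (T j (f l)) (C (f l))).subst
        (motive := (· ∈ Algebra.adjoin F (Set.range xx))) (add_mem (xm (.inr (j, l))) (xm (.inl l))))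
      (bx.tb.isAlgebraic.isAlgebraic x)
  have a2 : ∀ j i, IsAlgebraic (Algebra.adjoin F (Set.range xx)) (b j i) := fun j i => by
    obtain ⟨S', n, n', s1, s2⟩ := (ap j).ne
    have := many_aev (F := F) (R := Algebra.adjoin F (Set.range xx))
      (x := Sum.elim (C ∘ u) (T j ∘ u)) (by rintro (i | i); exacts [a0 _, a1 j _])
    refine IsAlgebraic.of_mul (mem_nonZeroDivisors_of_ne_zero s2) ?_
      ((ap j).eq S' n n' s1 i ▸ this (S' i))
    have e := this (∑ c, l j c • S' c)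
    simp only [map_sum, map_smul] at e
    exact e
  obtain ⟨g', hg'⟩ : ∃ g' : Fin ((r + 1) * (r + 1)) ⊕ Fin (r + 1) × Fin N → PW _ K,
      g' = Sum.elim (fun i => b (σ i).1 (σ i).2) fun q => T q.1 (g q.2) := ⟨_, rfl⟩
  obtain ⟨C₀, hC₀⟩ := h8 F (PW _ K) order _ _ xx g' order_mul order_zero ord (by
    rw [hg']; rintro (i | i); exacts [a2 _ _, a1 _ _])
  clear a0 a1 a2 xm ord hxx
  obtain ⟨B, hB⟩ : ∃ B, B = ∑ j, C₁ j := ⟨_, rfl⟩
  obtain ⟨E, hE⟩ : ∃ E, E = C₀ * ((r + 1) * (r + 1) + B + 1) + 1 := ⟨_, rfl⟩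
  refine ⟨E ^ ((r + 1) * (r + 1)) + (B + n₀ + c * E), fun k => ?_⟩
  let W₀ : Submodule F K :=
    { carrier := {x | ∀ V ∈ G, Wt u (∑ j, e₁ * J j) V x}
      zero_mem' := fun V _ i _ => by rw [zero_div]; exact zero_mem V
      add_mem' := fun a b V hV i hi => by rw [add_div]; exact add_mem (a V hV i hi) (b V hV i hi)
      smul_mem' := fun c x a V hV i hi => by
        rw [Algebra.smul_def, mul_div_assoc]; exact mul_mem (hg.fV V hV _ c.2) (a V hV i hi) }
  refine ⟨Pol F g _ ⊓ W₀, inf_le_left, fun x hx => hx.2, ?_⟩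
  have HB : ∀ p : Fin (r + 1) → Fin (k + 1), ∑ j, C₁ j * (p j + 1) ≤ B * (k + 1) := fun p => by
    rw [hB, sum_mul]
    exact sum_le_sum fun j _ => Nat.mul_le_mul_left _ (p j).2
  have DE : C₀ * (((r + 1) * (r + 1) + B) * (k + 1) + 1) + 1 ≤ E * (k + 1) := by
    rw [hE]; nlinarith [Nat.zero_le (C₀ * k)]
  have := many_fin (F := F) (g := g) (n := (E ^ ((r + 1) * (r + 1)) + (B + n₀ + c * E)) * (k + 1))
  have cnt := many_cnt h9 F ((Fin ((r + 1) * (r + 1)) → Fin (k + 1)) × (Fin (r + 1) → Fin (k + 1)))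
    (Pol F g ((E ^ ((r + 1) * (r + 1)) + (B + n₀ + c * E)) * (k + 1)) ⊓ W₀)
    (fun p => (∏ i, b (σ i).1 (σ i).2 ^ (p.1 i : ℕ)) * (∏ j, T j (H j (p.2 j))) * Z)
    (C₀ * (((r + 1) * (r + 1) + B) * (k + 1) + 1))
    (Submodule.finiteDimensional_of_le inf_le_left)
    ((li.comp (fun p : (_ → Fin (k + 1)) × (_ → Fin (k + 1)) =>
      (fun i => (p.1 i : ℕ), fun j => (p.2 j : ℕ))) fun p q e => Prod.ext
        (funext fun i => Fin.ext (congrFun (congrArg Prod.fst e) i))
        (funext fun i => Fin.ext (congrFun (congrArg Prod.snd e) i))).map'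
      (LinearMap.mulRight F Z) (LinearMap.ker_eq_bot.2 (mul_left_injective₀ Z0)))
    (fun p m hm => ⟨?_, fun V hV => ?_⟩) fun p hp p0 => ?_
  · simp only [Fintype.card_prod, Fintype.card_pi, Fintype.card_fin, prod_const, card_univ] at cnt
    have := cnt.trans (Nat.mul_le_mul_right _ (Nat.pow_le_pow_left DE _))
    rw [mul_pow, mul_comm (E ^ _), mul_assoc] at this
    exact (Nat.le_of_mul_le_mul_left this (by positivity)).trans
      (Nat.mul_le_mul_right _ (Nat.le_add_right _ _))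
  · refine many_mono ((((ManyQ.ofF (n := 0) (many_cF univ (fun i => (ap _).cF _) _)).mul
      (ManyQ.prod univ fun j _ => ManyQ.tay (tay j) st (hC₁ j _))).mul Z3) m) ?_
    have := HB p.2
    have := Nat.mul_le_mul_left c (hm.trans ((Nat.le_succ _).trans DE))
    nlinarith [Nat.zero_le (E ^ ((r + 1) * (r + 1)) * (k + 1)), Nat.zero_le (n₀ * k)]
  · have tw := fun j => h6 _ _ _ Θ K u _ (dj d j) (T j) (b j) V S e₁ e₂ (ς j)
      (fun e => by simp [e] at ub) (tay j) (fun c => hg.fV V hV _ (F.algebraMap_mem c))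
      (fun i x hx => by
        rw [dj]
        split_ifs
        exacts [hg.der V hV _ x hx, zero_mem V]) (fun c m => hg.fV V hV _ ((ap j).cF c m)) hS (hς j)
    have key : ∀ s : Finset (Fin (r + 1)), ∀ m, Wt u (∑ j ∈ s, e₁ * J j) V
        (coeff m ((∏ i, b (σ i).1 (σ i).2 ^ (p.1 i : ℕ)) *
          ∏ j ∈ s, T j (H j (p.2 j)) * ς j ^ J j)) := fun s => by
      induction s using Finset.induction_on with
      | empty =>
        intro m i _
        simpa using hg.fV V hV _ (many_cF univ (fun i => (ap (σ i).1).cF (σ i).2) _ m)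
      | insert j s hj ih =>
        rw [sum_insert hj, prod_insert hj, mul_left_comm]
        exact (tw j).2 _ _ _ _ ((tw j).1 _ _ (wt j _ V hV)) ih
    rw [hZ, mul_assoc, ← prod_mul_distrib]
    exact key univ m
  · obtain ⟨q, q1, rfl⟩ : ∃ q ∈ Pol F g' (((r + 1) * (r + 1) + B) * (k + 1)), q * Z = p := by
      refine (Submodule.span_le (p := (Pol F g' (((r + 1) * (r + 1) + B) * (k + 1))).map
        (LinearMap.mulRight F Z))).2 ?_ hp
      rintro _ ⟨p, rfl⟩
      refine ⟨_, many_mono (many_mul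
        (many_prod (n := fun i => p.1 i) univ fun i _ => by
          simpa only [hg', Sum.elim_inl] using many_pow (F := F) (g := g') (Sum.inl i) (p.1 i))
        (many_prod univ fun j _ => many_map (manyHom (T j) (TF j)) (fun n => Sum.inr (j, n))
          (fun n => by rw [hg']; rfl) (hC₁ j _))) ?_, rfl⟩
      rw [add_mul _ B]
      refine add_le_add ?_ (HB p.2)
      simpa using sum_le_card_nsmul univ (fun i => (p.1 i : ℕ)) (k + 1) fun i _ => (p.1 i).2.le
    rw [order_mul, Z2, add_zero]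
    exact hC₀ _ q q1 (left_ne_zero_of_mul p0)

end Pool.Agent.MP_c69980_ag.H43
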