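import Pool.Agent.MP_c69980_ag.H43.Spec7
import Pool.Agent.MP_c69980_ag.S97.Ext

/-!
Rigidity of pointed curves of bounded height.
-/

set_option autoImplicit false

namespace Pool.Agent.MP_c69980_ag.H43

open MvPolynomial H60 Finset Filter Pool.Agent.MP_f3836a_nt.PK

section Rl
variable {A B σ : Type} [CommRing A] [Field B] [SetLike σ A] [SubringClass σ A] {O : σ}
  {Φ : O →+* B} {x y : A} {u v : B}

/-- `x` lies in the domain of `Φ` and has image `v`. -/
def RigFRl (O : σ) (Φ : O →+* B) (x : A) (v : B) : Prop := ∃ h : x ∈ O, Φ ⟨x, h⟩ = v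

namespace RigFRl

lemma uniq (h : RigFRl O Φ x u) (h' : RigFRl O Φ x v) : u = v := h.2.symm.trans h'.2

lemma add (h : RigFRl O Φ x u) (h' : RigFRl O Φ y v) : RigFRl O Φ (x + y) (u + v) :=
  ⟨add_mem h.1 h'.1, by rw [← h.2, ← h'.2, ← map_add]; rfl⟩

lemma sub (h : RigFRl O Φ x u) (h' : RigFRl O Φ y v) : RigFRl O Φ (x - y) (u - v) :=
  ⟨sub_mem h.1 h'.1, by rw [← h.2, ← h'.2, ← map_sub]; rfl⟩

lemma mul (h : RigFRl O Φ x u) (h' : RigFRl O Φ y v) : RigFRl O Φ (x * y) (u * v) :=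
  ⟨mul_mem h.1 h'.1, by rw [← h.2, ← h'.2, ← map_mul]; rfl⟩

lemma zero : RigFRl O Φ 0 0 := ⟨zero_mem O, Φ.map_zero⟩

lemma one : RigFRl O Φ 1 1 := ⟨one_mem O, Φ.map_one⟩

lemma sum {ι : Type} (s : Finset ι) {x : ι → A} {v : ι → B}
    (h : ∀ i ∈ s, RigFRl O Φ (x i) (v i)) : RigFRl O Φ (∑ i ∈ s, x i) (∑ i ∈ s, v i) := by
  classical
  induction s using Finset.induction_on with
  | empty => simpa using zero
  | insert i s hi ih =>
    rw [sum_insert hi, sum_insert hi]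
    exact (h i (mem_insert_self _ _)).add (ih fun j hj => h j (mem_insert_of_mem hj))

lemma inv (h : RigFRl O Φ x u) (hy : y ∈ O) (e : x * y = 1) : RigFRl O Φ y u⁻¹ :=
  ⟨hy, eq_inv_of_mul_eq_one_right ((h.mul ⟨hy, rfl⟩).uniq (e ▸ one))⟩

variable [Algebra ℂ A] [Algebra ℂ B] {k : Subfield ℂ}

lemma aev {ι : Type} (hk : ∀ c ∈ k, RigFRl O Φ (algebraMap ℂ A c) (algebraMap ℂ B c))
    {x : ι → A} {v : ι → B} (h : ∀ i, RigFRl O Φ (x i) (v i)) {P : MvPolynomial ι ℂ}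
    (hP : Cf k P) : RigFRl O Φ (aeval x P) (aeval v P) := by
  obtain ⟨P', rfl⟩ := cf_iff.1 hP
  clear hP
  induction P' using MvPolynomial.induction_on with
  | C c => simpa using hk c c.2
  | add p q hp hq => simp only [map_add]; exact hp.add hq
  | mul_X p i hp => simp only [map_mul, map_X, aeval_X]; exact hp.mul (h i)

variable {L : Type} [Field L] [Algebra ℂ L] {O : Subring (ℕ → L)} {Φ : O →+* L}

lemma pol (hk : ∀ c ∈ k, RigFRl O Φ (fun _ => algebraMap ℂ L c) (algebraMap ℂ L c))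
    {a : ℕ → ℂ} {b : ℂ} (h : RigFRl O Φ (fun n => algebraMap ℂ L (a n)) (algebraMap ℂ L b))
    (q : Polynomial k) : RigFRl O Φ (fun n => algebraMap ℂ L (Polynomial.aeval (a n) q))
      (algebraMap ℂ L (Polynomial.aeval b q)) := by
  induction q using Polynomial.induction_on with
  | C c => simp only [Polynomial.aeval_C]; exact hk c c.2
  | add p q hp hq => simp only [map_add]; exact hp.add hq
  | monomial n c hc =>
    simp only [pow_succ, ← mul_assoc, map_mul, Polynomial.aeval_X] at hc ⊢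
    exact hc.mul h

lemma lin {ι : Type} [Fintype ι] {e : ι → L} {a : ℕ → ι → ℂ} {b : ι → ℂ}
    (he : ∀ i, RigFRl O Φ (fun _ => e i) (e i))
    (h : ∀ i, RigFRl O Φ (fun n => algebraMap ℂ L (a n i)) (algebraMap ℂ L (b i))) :
    RigFRl O Φ (fun n => ∑ i, a n i • e i) (∑ i, b i • e i) := by
  convert sum univ fun i _ => (h i).mul (he i) using 1
  · ext n; simp [Algebra.smul_def]
  · simp [Algebra.smul_def]

lemma aev' {ι : Type} (hk : ∀ c ∈ k, RigFRl O Φ (fun _ => algebraMap ℂ L c) (algebraMap ℂ L c))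
    {x : ℕ → ι → L} {v : ι → L} (h : ∀ i, RigFRl O Φ (fun n => x n i) (v i))
    {P : MvPolynomial ι ℂ} (hP : Cf k P) : RigFRl O Φ (fun n => aeval (x n) P) (aeval v P) := by
  convert aev (x := fun i n => x n i) hk h hP using 1
  ext n
  exact (congrArg (fun f => f P)
    (comp_aeval (f := fun i n => x n i) (Pi.evalAlgHom ℂ (fun _ => L) n))).symm

end RigFRl

end Rl

section Val
variable {L : Type} [Field L] [Algebra ℂ L] (h : FFd L) (P : Pl L)

/-- The residue map. -/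
noncomputable def rigFχ : P.V →+* ℂ := (h.a.hom P).choose

variable {h P} {f g : L} {c : ℂ}

lemma rigF_iff : RigFRl P.V (rigFχ h P) f c ↔ f ∈ P.V ∧ P.val f = c :=
  ⟨fun ⟨a, b⟩ => ⟨a, ((h.a.hom P).choose_spec.1 ⟨f, a⟩).symm.trans b⟩,
    fun ⟨a, b⟩ => ⟨a, ((h.a.hom P).choose_spec.1 ⟨f, a⟩).trans b⟩⟩

lemma rigF_const (c : ℂ) : RigFRl P.V (rigFχ h P) (algebraMap ℂ L c) c :=
  rigF_iff.2 ⟨P.const c, (h.a.hom P).choose_spec.2 c⟩

lemma rigF_val (a : f ∈ P.V) : RigFRl P.V (rigFχ h P) f (P.val f) := rigF_iff.2 ⟨a, rfl⟩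

lemma rigF_smul (H : RigFRl P.V (rigFχ h P) f c) (a : ℂ) :
    RigFRl P.V (rigFχ h P) (a • f) (a * c) := by
  rw [Algebra.smul_def]; exact (rigF_const a).mul H

lemma rigF_zero (H : RigFRl P.V (rigFχ h P) f 0) : f = 0 ∨ 0 < P.ord f := by
  simpa [Place.Zero] using (h.a.val P f H.1 0).2 (rigF_iff.1 H).2

lemma rigF_inv (H : RigFRl P.V (rigFχ h P) f c) (hc : c ≠ 0) :
    f ≠ 0 ∧ RigFRl P.V (rigFχ h P) f⁻¹ c⁻¹ := by
  have f0 : f ≠ 0 := fun e => hc (H.uniq (e ▸ RigFRl.zero))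
  refine ⟨f0, H.inv ((h.a.mem P _ (inv_ne_zero f0)).2 ?_) (mul_inv_cancel₀ f0)⟩
  rw [h.ord_inv]
  by_contra e
  refine hc ((rigF_iff.1 H).2.symm.trans ((h.a.val P f H.1 0).1 (Or.inr ?_)))
  simp only [map_zero, sub_zero]
  omega

/-- Uniqueness of solutions of a polynomial differential equation. -/
lemma rigF_ode {ι κ : Type} [Fintype ι] [Fintype κ] {D : Derivation ℂ L L} {S m χ}
    (cd : CD D S m χ) (hP : P ∉ S) (Q : κ → ι → MvPolynomial ι ℂ) (g : κ → L) (ψ ψ' : ι → L)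
    (p : ι → ℂ) (hg : ∀ i, g i ∈ P.V) (h1 : ∀ x, RigFRl P.V (rigFχ h P) (ψ x) (p x))
    (h2 : ∀ x, RigFRl P.V (rigFχ h P) (ψ' x) (p x))
    (e1 : ∀ x, D (ψ x) = ∑ i, g i * aeval ψ (Q i x))
    (e2 : ∀ x, D (ψ' x) = ∑ i, g i * aeval ψ' (Q i x)) : ψ = ψ' := by
  classical
  by_contra ne
  obtain ⟨x₀, hx⟩ := Function.ne_iff.1 ne
  obtain ⟨x, m1, m2⟩ := exists_min_image (univ.filter fun x => ψ x - ψ' x ≠ 0)
    (fun x => P.ord (ψ x - ψ' x)) ⟨x₀, by simpa [sub_eq_zero] using hx⟩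
  have u0 : ψ x - ψ' x ≠ 0 := by simpa using m1
  set u := ψ x - ψ' x with hu
  have d1 : ∀ z, (ψ z - ψ' z) * u⁻¹ ∈ P.V := fun z => by
    by_cases e : ψ z - ψ' z = 0
    · rw [e, zero_mul]; exact zero_mem _
    · have := m2 z (by simpa using e)
      rw [h.a.mem P _ (mul_ne_zero e (inv_ne_zero u0)), h.a.mul P _ _ e (inv_ne_zero u0),
        h.ord_inv]
      omega
  have d2 : ∀ F : MvPolynomial ι ℂ, aeval ψ F ∈ P.V ∧ (aeval ψ F - aeval ψ' F) * u⁻¹ ∈ P.V := by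
    intro F
    induction F using MvPolynomial.induction_on with
    | C c => exact ⟨by simpa using P.const c, by simp⟩
    | add p q hp hq =>
      refine ⟨by rw [map_add]; exact add_mem hp.1 hq.1, ?_⟩
      convert add_mem hp.2 hq.2 using 1
      simp only [map_add]; ring
    | mul_X p i hp =>
      refine ⟨by rw [map_mul, aeval_X]; exact mul_mem hp.1 (h1 i).1, ?_⟩
      convert add_mem (mul_mem hp.1 (d1 i)) (mul_mem hp.2 (h2 i).1) using 1
      simp only [map_mul, aeval_X]; ring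
  have d3 : D u * u⁻¹ ∈ P.V := by
    convert sum_mem (t := univ) fun i _ => mul_mem (hg i) (d2 (Q i x)).2 using 1
    rw [hu, map_sub, e1, e2, ← sum_sub_distrib, sum_mul]
    exact sum_congr rfl fun i _ => by ring
  have o1 : 0 < P.ord u := by
    have := (h1 x).sub (h2 x)
    rw [sub_self] at this
    exact (rigF_zero this).resolve_left u0
  obtain ⟨o2, o3⟩ := cd.ord P u o1.ne'
  rw [h.a.mem P _ (mul_ne_zero o2 (inv_ne_zero u0)), h.a.mul P _ _ o2 (inv_ne_zero u0),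
    h.ord_inv, o3, cd.one P hP] at d3
  omega

/-- A basis of the space of functions with bounded poles. -/
lemma rigF_space (h : FFd L) (E : Pl L →₀ ℤ) : ∃ (r : ℕ) (wb : Fin r → L), LinearIndependent ℂ wb ∧
    ∀ f, (∀ P : Pl L, f = 0 ∨ -E P ≤ P.ord f) ↔ ∃ γ : Fin r → ℂ, f = ∑ k, γ k • wb k := by
  let W : Submodule ℂ L :=
    { carrier := {f | ∀ P : Pl L, f = 0 ∨ -E P ≤ P.ord f}
      zero_mem' := fun _ => Or.inl rfl
      add_mem' := fun {f g} a b P => by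
        by_cases e : f = 0
        · simpa [e] using b P
        by_cases e' : g = 0
        · simpa [e'] using a P
        by_cases e'' : f + g = 0
        · exact Or.inl e''
        have := h.a.add P f g e e' e''
        have := (a P).resolve_left e
        have := (b P).resolve_left e'
        omega
      smul_mem' := fun c f a P => by
        by_cases e : f = 0
        · simp [e]
        by_cases e' : c = 0
        · simp [e']
        rw [Algebra.smul_def, h.a.mul P _ _ (by simpa using e') e, h.a.con, zero_add]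
        exact Or.inr ((a P).resolve_left e) }
  have := (rLE ℂ L h.ff h.a h.b E W fun f a b P => (a P).resolve_left b).2.1
  let b := Module.finBasis ℂ W
  refine ⟨_, fun i => b i, b.linearIndependent.map' W.subtype W.ker_subtype, fun f => ⟨fun a =>
    ⟨b.repr ⟨f, a⟩, ?_⟩, ?_⟩⟩
  · simpa only [Submodule.coe_sum, Submodule.coe_smul] using
      (congrArg Subtype.val (b.sum_repr ⟨f, a⟩)).symm
  · rintro ⟨γ, rfl⟩
    exact W.sum_mem fun i _ => W.smul_mem _ (b i).2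

omit [Algebra ℂ L] in
lemma rigF_quot {R : Type} [CommRing R] [Algebra R L] (δ : Derivation R L L) {ψ A B : L}
    (e : ψ * A = B) (hA : A ≠ 0) : δ ψ = (δ B - ψ * δ A) * A⁻¹ := by
  rw [← e, Derivation.leibniz, smul_eq_mul, smul_eq_mul]
  field_simp
  ring

lemma rigF_lin {ι : Type} [Fintype ι] (δ : Derivation ℤ L L) (d : Der)
    (H : ∀ c, δ (algebraMap ℂ L c) = algebraMap ℂ L (d c)) {e : ι → L} (he : ∀ i, δ (e i) = 0)
    (c : ι → ℂ) : δ (∑ i, c i • e i) = ∑ i, d (c i) • e i := by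
  rw [map_sum]
  exact sum_congr rfl fun i _ => by
    simp [Algebra.smul_def, Derivation.leibniz, he, H, mul_comm]

end Val

lemma rigF_core (h1 : SCd) (h2 : SVelF) (h3 : SParam) (h4 : STrf) (h5 : SDerL) {t a M : ℕ}
    {w : Fin M → Option (Fin t)} {Θ : Pt t a → Fin M → ℂ} {PP : PT M t a} {L : Type} [Field L]
    [Algebra ℂ L] {S : Finset (Pl L)} {P₀ : Pl L} {d : ℕ} {y : ℕ → Fin M → L} {p : Fin M → ℂ}
    {β : Cht M t} (gk : GK w Θ PP) (h : FFd L) (hP : P₀ ∉ S) (on : ∀ j, OnG w Θ (y j))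
    (reg : ∀ j, ∀ P ∉ S, RegG w P (y j)) (hd : ∀ j, ht (y j) ≤ d) (ch : ∀ j, Ch w β (y j))
    (cp : Ch w β p) (op : OnG w Θ p)
    (vl : ∀ j z, RigFRl P₀.V (rigFχ h P₀) (co β (y j) z) (co β p z)) :
    ∃ j j', j ≠ j' ∧ co β (y j) = co β (y j') := by
  classical
  obtain ⟨D, S', m, χ, cd, hS, hP'⟩ := h1 L h S P₀ hP
  choose g gv gp using fun j => h2 _ _ _ w Θ PP L D S' m χ (y j) gk cd (on j)
  have gr : ∀ j i, ∀ P ∉ S', g j i ∈ P.V := fun j i P a =>
    (gp j P i).2 a (reg j P fun b => a (hS b))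
  obtain ⟨r, wb, wl, ws⟩ := rigF_space h (Finsupp.onFinset S' (fun P => if P ∈ S' then m P else 0)
    fun P e => by by_contra n; simp [n] at e)
  simp only [Finsupp.onFinset_apply] at ws
  choose γ hγ using fun j i => (ws (g j i)).1 fun P => by
    split_ifs with a
    · exact (gp j P i).1
    · exact or_iff_not_imp_left.2 fun e => by simpa using (h.a.mem P _ e).1 (gr j i P a)
  obtain ⟨N, e, eV, he⟩ := h3 L h P₀ d
  choose α α' hα hα' using fun j z => he (co β (y j) z) (vl j z).1 ((deg_le_ht _ _ _).trans (hd j))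
  obtain ⟨s₁, c₁, hs₁⟩ := h5 L D S' m χ cd (Set.range e ∪ Set.range wb)
    ((Set.countable_range _).union (Set.countable_range _))
  obtain ⟨s₂, c₂, hs₂⟩ := gk.ev.and (Ev.all fun i => Ev.all fun z => ev_cf (PP β i z))
  obtain ⟨k, O, Φ, b, -, ks, ker, inv, hT, hk, hb⟩ := h4 L (hyperfilter ℕ)
    (Set.range e ∪ Set.range wb ∪ Set.range fun i => D (e i))
    (s₁ ∪ s₂ ∪ Set.range (fun i => P₀.val (e i)) ∪ Set.range (co β p))
    ((CI M t × Fin N) ⊕ (CI M t × Fin N) ⊕ (Fin (t + a) × Fin r))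
    (Sum.elim (fun x n => α n x.1 x.2) (Sum.elim (fun x n => α' n x.1 x.2) fun x n => γ n x.1 x.2))
    (((Set.countable_range _).union (Set.countable_range _)).union (Set.countable_range _))
    (((c₁.union c₂).union (Set.countable_range _)).union (Set.countable_range _))
  obtain ⟨gkk, cf⟩ := hs₂ k fun x a => ks (Or.inl (Or.inl (Or.inr a)))
  have k1 : ∀ i, P₀.val (e i) ∈ k := fun i => ks (Or.inl (Or.inr ⟨i, rfl⟩))
  have k2 : ∀ z, co β p z ∈ k := fun z => ks (Or.inr ⟨z, rfl⟩)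
  obtain ⟨u, hu⟩ : ∃ u : CI M t → Fin N → ℂ, u = fun z i => b (.inl (z, i)) := ⟨_, rfl⟩
  obtain ⟨u', hu'⟩ : ∃ u : CI M t → Fin N → ℂ, u = fun z i => b (.inr (.inl (z, i))) := ⟨_, rfl⟩
  obtain ⟨c, hc⟩ : ∃ c : Fin (t + a) → Fin r → ℂ, c = fun i l => b (.inr (.inr (i, l))) := ⟨_, rfl⟩
  have b1 : ∀ z i, RigFRl O Φ (fun n => algebraMap ℂ L (α n z i)) (algebraMap ℂ L (u z i)) :=
    fun z i => hu ▸ hb (.inl (z, i))
  have b2 : ∀ z i, RigFRl O Φ (fun n => algebraMap ℂ L (α' n z i)) (algebraMap ℂ L (u' z i)) :=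
    fun z i => hu' ▸ hb (.inr (.inl (z, i)))
  have b3 : ∀ i l, RigFRl O Φ (fun n => algebraMap ℂ L (γ n i l)) (algebraMap ℂ L (c i l)) :=
    fun i l => hc ▸ hb (.inr (.inr (i, l)))
  have t1 : ∀ i, RigFRl O Φ (fun _ => e i) (e i) := fun i => hT _ (Or.inl (Or.inl ⟨i, rfl⟩))
  have t2 : ∀ i, RigFRl O Φ (fun _ => wb i) (wb i) := fun i => hT _ (Or.inl (Or.inr ⟨i, rfl⟩))
  have t3 : ∀ i, RigFRl O Φ (fun _ => D (e i)) (D (e i)) := fun i => hT _ (Or.inr ⟨i, rfl⟩)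
  have hk' : ∀ c ∈ k, RigFRl O Φ (fun _ => algebraMap ℂ L c) (algebraMap ℂ L c) := hk
  have K : ∀ {x v}, RigFRl O Φ x v → (v = 0 ↔ ∀ᶠ n in hyperfilter ℕ, x n = 0) :=
    fun H => H.2 ▸ ker _
  clear hu hu' hc hb hT hk ker
  have VA : ∀ c : Fin N → ℂ,
      RigFRl P₀.V (rigFχ h P₀) (∑ i, c i • e i) (∑ i, c i * P₀.val (e i)) := fun c =>
    RigFRl.sum _ fun i _ => rigF_smul (rigF_val (eV i)) _
  have sc : ∀ c : Fin N → ℂ, ∑ i, c i • algebraMap ℂ L (P₀.val (e i)) =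
      algebraMap ℂ L (∑ i, c i * P₀.val (e i)) := fun c => by simp [Algebra.smul_def]
  have A0 : ∀ n z, ∑ i, α n z i • e i ≠ 0 := fun n z => (rigF_inv (VA _) (hα n z)).1
  have a1 : ∀ z, RigFRl O Φ (fun n => algebraMap ℂ L (∑ i, α n z i * P₀.val (e i)))
      (algebraMap ℂ L (∑ i, u z i * P₀.val (e i))) := fun z => by
    simpa only [sc] using RigFRl.lin (fun i => hk' _ (k1 i)) (b1 z)
  have a2 : ∀ z, RigFRl O Φ (fun n => algebraMap ℂ L (∑ i, α' n z i * P₀.val (e i)))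
      (algebraMap ℂ L (∑ i, u' z i * P₀.val (e i))) := fun z => by
    simpa only [sc] using RigFRl.lin (fun i => hk' _ (k1 i)) (b2 z)
  have a0 : ∀ z, ∑ i, u z i * P₀.val (e i) ≠ 0 := fun z e => by
    obtain ⟨n, hn⟩ := ((K (a1 z)).1 (by rw [e, map_zero])).exists
    exact hα n z ((map_eq_zero _).1 hn)
  have a3 : ∀ z, ∑ i, u' z i * P₀.val (e i) = co β p z * ∑ i, u z i * P₀.val (e i) := fun z => by
    apply (algebraMap ℂ L).injective
    rw [map_mul]
    refine (a2 z).uniq ?_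
    convert (hk' _ (k2 z)).mul (a1 z) using 1
    ext n
    rw [Pi.mul_apply, ← map_mul, ((vl n z).mul (VA _)).uniq (hα' n z ▸ VA _)]
  have A1 := fun z => rigF_inv (VA (u z)) (a0 z)
  obtain ⟨ψ, hψ⟩ : ∃ ψ : CI M t → L, ψ = fun z => (∑ i, u' z i • e i) * (∑ i, u z i • e i)⁻¹ :=
    ⟨_, rfl⟩
  have ψ1 : ∀ z, ψ z * ∑ i, u z i • e i = ∑ i, u' z i • e i := fun z => by
    rw [hψ]; exact inv_mul_cancel_right₀ (A1 z).1 _
  have ψ2 : ∀ z, RigFRl P₀.V (rigFχ h P₀) (ψ z) (co β p z) := fun z => by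
    have := (VA (u' z)).mul (A1 z).2
    rwa [a3, mul_inv_cancel_right₀ (a0 z), ← congrFun hψ z] at this
  have RI : ∀ z, RigFRl O Φ (fun n => (∑ i, α n z i • e i)⁻¹) (∑ i, u z i • e i)⁻¹ := fun z =>
    (RigFRl.lin t1 (b1 z)).inv (inv _ (RigFRl.lin t1 (b1 z)).1)
      (funext fun n => mul_inv_cancel₀ (A0 n z))
  have ψ3 : ∀ z, RigFRl O Φ (fun n => co β (y n) z) (ψ z) := fun z => by
    rw [hψ]
    convert (RigFRl.lin t1 (b2 z)).mul (RI z) using 1
    ext n
    rw [Pi.mul_apply, ← hα', mul_inv_cancel_right₀ (A0 n z)]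
  have Dl : ∀ c : Fin N → ℂ, D (∑ i, c i • e i) = ∑ i, c i • D (e i) := fun c => by simp
  have ψ4 : ∀ z, RigFRl O Φ (fun n => D (co β (y n) z)) (D (ψ z)) := fun z => by
    rw [rigF_quot D (ψ1 z) (A1 z).1, Dl, Dl]
    convert ((RigFRl.lin t3 (b2 z)).sub ((ψ3 z).mul (RigFRl.lin t3 (b1 z)))).mul (RI z) using 1
    ext n
    rw [rigF_quot D (hα' n z) (A0 n z), Dl, Dl]
    rfl
  clear hψ RI a1 a2
  have cY : Ch w β fun c => ψ (c, none) := fun o =>
    ⟨(cp o).1, (rigF_inv (ψ2 _) (div_ne_zero (cp o).2 (cp none).2)).1⟩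
  have eY : (co β fun c => ψ (c, none)) = ψ := funext fun z => by
    rw [co, div_eq_iff (cY z.2).2]
    refine (ψ3 _).uniq ?_
    convert (ψ3 z).mul (ψ3 (β z.2, none)) using 1
    ext n
    simp only [co, Pi.mul_apply]
    rw [div_mul_div_cancel₀ (ch n _).2]
  have oY : OnG w Θ fun c => ψ (c, none) := by
    refine ⟨fun o => ⟨_, cY o⟩, gkk.eqs _ _ fun F n f1 f2 f3 => ?_⟩
    refine (K (RigFRl.aev' (x := fun n c => co β (y n) (c, none)) hk' (fun c => ψ3 _) f2)).2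
      (Eventually.of_forall fun j => ?_)
    simp only [co, div_eq_inv_mul]
    rw [aeval_scale f1, (on j).eqs F n f1 f3, mul_zero]
  have G1 : ∀ i, RigFRl O Φ (fun n => g n i) (∑ l, c i l • wb l) := fun i => by
    simpa only [← hγ] using RigFRl.lin t2 (b3 i)
  have kD : KillA k (D.restrictScalars ℤ) := fun c _ => D.map_algebraMap c
  have vD : Vel w PP (D.restrictScalars ℤ) (fun c => ψ (c, none)) fun i => ∑ l, c i l • wb l := by
    refine gkk.one _ _ _ _ β oY kD cY fun z => ?_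
    rw [eY]
    refine (ψ4 z).uniq ?_
    convert RigFRl.sum univ fun i _ => (G1 i).mul (RigFRl.aev' hk' ψ3 (cf i z)) using 1
    · ext n
      rw [gv n β (ch n) z, Finset.sum_apply]
      rfl
    · rfl
  have kill : ∀ d : Der, Kill k d → ∀ i l, d (c i l) = 0 := by
    intro d hd
    obtain ⟨δ, δ1, δ2, δ3⟩ := hs₁ d fun x a => hd x (ks (Or.inl (Or.inl (Or.inl a))))
    have kδ : KillA k δ := fun c a => by rw [δ1, hd c a, map_zero]
    have δe := rigF_lin δ d δ1 fun i => δ2 (e i) (Or.inl ⟨i, rfl⟩)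
    have δw := rigF_lin δ d δ1 fun i => δ2 (wb i) (Or.inr ⟨i, rfl⟩)
    obtain ⟨v, hv⟩ := gkk.ex _ _ δ oY kδ
    have v1 : ∀ i, D (v i) = ∑ l, d (c i l) • wb l := fun i => by
      have := congrFun (gk.imm _ _ _ β oY cY fun z =>
        (gkk.br _ _ δ _ _ _ oY kδ kD hv vD β cY z).symm.trans (sub_eq_zero.2 (δ3 _))) i
      rw [← δw]
      exact (sub_eq_zero.1 this).symm
    choose v₀ v2 using fun i => h.b.const (v i) fun P => by
      by_contra n
      have n0 : v i ≠ 0 := fun e => n (e ▸ zero_mem _)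
      rw [h.a.mem P _ n0] at n
      obtain ⟨o1, o2⟩ := cd.ord P (v i) (by omega)
      have := ((ws _).2 ⟨_, v1 i⟩ P).resolve_left o1
      split_ifs at this with a
      · omega
      · rw [cd.one P a] at o2; omega
    have dl : ∀ c : Fin N → ℂ, d (∑ i, c i * P₀.val (e i)) = ∑ i, d (c i) * P₀.val (e i) :=
      fun c => by simp [Derivation.leibniz, hd _ (k1 _), mul_comm]
    have v3 : v₀ = 0 := gk.imm ℂ p v₀ β op cp fun z => by
      have q1 := ((VA fun i => d (u' z i)).sub ((ψ2 z).mul (VA fun i => d (u z i)))).mul (A1 z).2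
      rw [← δe, ← δe, ← rigF_quot δ (ψ1 z) (A1 z).1, ← dl, ← dl, a3, Derivation.leibniz,
        hd _ (k2 z), smul_zero, add_zero, smul_eq_mul, sub_self, zero_mul] at q1
      refine RigFRl.uniq ?_ q1
      have := hv β cY z
      rw [eY] at this
      rw [this]
      exact RigFRl.sum univ fun i _ => (v2 i ▸ rigF_const (v₀ i)).mul
        (RigFRl.aev (k := k) (fun c _ => rigF_const c) ψ2 (cf i z))
    intro i
    refine Fintype.linearIndependent_iff.1 wl _ ?_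
    rw [← v1, v2, D.map_algebraMap]
  have alg : ∀ i l, IsAlgebraic k (c i l) := fun i l => by
    by_contra n
    obtain ⟨d, d1, d2⟩ := sExt.2 k Unit (fun _ => c i l) (algebraicIndependent_unique_type_iff.2 n)
      fun _ => 1
    exact one_ne_zero ((d2 ()).symm.trans (kill d d1 i l))
  choose q q0 q1 using alg
  have ev : ∀ᶠ n in hyperfilter ℕ, γ n ∈ Set.pi Set.univ fun i => Set.pi Set.univ fun l =>
      (q i l).rootSet ℂ := by
    simp only [Set.mem_pi, Set.mem_univ, forall_true_left, eventually_all]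
    intro i l
    refine ((K (RigFRl.pol hk' (b3 i l) (q i l))).1 (by rw [q1, map_zero])).mono fun n hn => ?_
    exact Polynomial.mem_rootSet.2 ⟨q0 i l, (map_eq_zero _).1 hn⟩
  obtain ⟨j, -, j', -, n, E⟩ := Set.Infinite.exists_ne_map_eq_of_mapsTo
    (fun f => notMem_hyperfilter_of_finite f ev) (f := γ) (fun _ a => a)
    (Set.Finite.pi fun i => Set.Finite.pi fun l => Polynomial.rootSet_finite _ _)
  have E' : g j' = g j := funext fun i => by rw [hγ, hγ, E]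
  exact ⟨j, j', n, rigF_ode cd hP' (PP β) (g j) _ _ _ (fun i => gr j i _ hP') (vl j) (vl j')
    (gv j β (ch j)) (E' ▸ gv j' β (ch j'))⟩

theorem sRigF (h1 : SCd) (h2 : SVelF) (h3 : SParam) (h4 : STrf) (h5 : SDerL) : SRigF := by
  intro t a M w Θ PP L _ _ S P₀ d y x gk h hP on reg hd red
  choose β ch cv using fun j => reg j P₀ hP
  have key : ∀ j, (∀ o, x.rep (β j o) ≠ 0) ∧ Eqs Θ x.rep ∧
      ∀ z, RigFRl P₀.V (rigFχ h P₀) (co (β j) (y j) z) (co (β j) x.rep z) := fun j => by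
    obtain ⟨c, c1, c2, e⟩ := red j
    obtain ⟨l, hl⟩ := (Projectivization.mk_eq_mk_iff' ℂ _ _ x.rep_nonzero c2).1 (x.mk_rep.trans e)
    have r1 : ∀ i, RigFRl P₀.V (rigFχ h P₀) (algebraMap ℂ L l * (c * y j i)) (x.rep i) := fun i =>
      hl ▸ (rigF_const l).mul (rigF_val (c1 i))
    have r2 : ∀ z : CI M t, P₀.val (co (β j) (y j) z) * x.rep (β j z.2) = x.rep z.1 := fun z => by
      refine ((rigF_val (cv j z)).mul (r1 _)).uniq ?_
      convert r1 z.1 using 1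
      have := (ch j z.2).2
      simp only [co]
      field_simp
    have r3 : ∀ o, x.rep (β j o) ≠ 0 := fun o e => x.rep_nonzero (funext fun i => by
      rw [← r2 (i, o), e, mul_zero]; rfl)
    refine ⟨r3, fun F n f1 f2 => ?_, fun z => rigF_iff.2 ⟨cv j z, eq_div_of_mul_eq (r3 _) (r2 z)⟩⟩
    refine (RigFRl.aev (k := ⊤) (fun c _ => rigF_const c) r1 fun _ => trivial).uniq ?_
    simp only [← mul_assoc]
    rw [aeval_scale f1, (on j).eqs F n f1 f2, mul_zero]
    exact RigFRl.zero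
  obtain ⟨β₀, hβ⟩ := Finite.exists_infinite_fiber β
  obtain ⟨ι, ι1, e⟩ : ∃ ι : ℕ → ℕ, Function.Injective ι ∧ ∀ n, β (ι n) = β₀ :=
    ⟨fun n => Infinite.natEmbedding (β ⁻¹' {β₀}) n, Subtype.val_injective.comp
      (Infinite.natEmbedding _).injective, fun n => (Infinite.natEmbedding (β ⁻¹' {β₀}) n).2⟩
  have ch' : ∀ n, Ch w β₀ (y (ι n)) := fun n => by rw [← e n]; exact ch _
  have cp : Ch w β₀ x.rep := fun o => ⟨(ch' 0 o).1, by rw [← e 0]; exact (key _).1 o⟩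
  obtain ⟨j, j', n, E⟩ := rigF_core h1 h2 h3 h4 h5 (y := fun n => y (ι n)) gk h hP (fun _ => on _)
    (fun _ => reg _) (fun _ => hd _) ch' cp ⟨fun o => ⟨_, cp o⟩, (key 0).2.1⟩
    fun n => by rw [← e n]; exact (key _).2.2
  refine ⟨ι j, ι j', fun e => n (ι1 e),
    y (ι j) (β₀ none) / y (ι j') (β₀ none), funext fun c => ?_⟩
  have := congrFun E (c, none)
  have n1 := (ch' j none).2
  simp only [co] at this
  rw [Pi.smul_apply, smul_eq_mul, ← div_mul_cancel₀ (y (ι j) c) n1, this]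
  ring

end Pool.Agent.MP_c69980_ag.H43
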