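import Pool.Agent.MP_c69980_ag.H43.Spec9
import Pool.Agent.MP_c69980_ag.S68.GKsub

/-!
Degrees of Taylor coefficients.
-/

set_option autoImplicit false

namespace Pool.Agent.MP_c69980_ag.H43

open H60 Finset MvPowerSeries

section Pol
variable {F A : Type} [Field F] [CommRing A] [Algebra F A] {ι : Type} {g : ι → A} {m n : ℕ}
  {x y : A}

lemma many_mem : x ∈ Pol F g n ↔
    ∃ P : MvPolynomial ι F, P.totalDegree ≤ n ∧ MvPolynomial.aeval g P = x := by
  simp [Pol, MvPolynomial.mem_restrictTotalDegree]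

lemma many_mono (h : x ∈ Pol F g m) (e : m ≤ n) : x ∈ Pol F g n :=
  let ⟨P, a, b⟩ := many_mem.1 h
  many_mem.2 ⟨P, a.trans e, b⟩

lemma many_mul (h : x ∈ Pol F g m) (h' : y ∈ Pol F g n) : x * y ∈ Pol F g (m + n) :=
  let ⟨P, a, b⟩ := many_mem.1 h
  let ⟨Q, c, d⟩ := many_mem.1 h'
  many_mem.2 ⟨P * Q, (MvPolynomial.totalDegree_mul P Q).trans (add_le_add a c), by
    rw [map_mul, b, d]⟩

lemma many_alg (c : F) : algebraMap F A c ∈ Pol F g n :=
  many_mem.2 ⟨MvPolynomial.C c, by simp, by simp⟩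

lemma many_gen (i : ι) : g i ∈ Pol F g 1 := many_mem.2 ⟨MvPolynomial.X i, by simp, by simp⟩

lemma many_prod {κ : Type} (s : Finset κ) {x : κ → A} {n : κ → ℕ}
    (h : ∀ i ∈ s, x i ∈ Pol F g (n i)) : ∏ i ∈ s, x i ∈ Pol F g (∑ i ∈ s, n i) := by
  classical
  induction s using Finset.induction_on with
  | empty => simpa using many_alg (g := g) (n := 0) (1 : F)
  | insert i s hi ih =>
    rw [prod_insert hi, sum_insert hi]
    exact many_mul (h i (mem_insert_self _ _)) (ih fun j hj => h j (mem_insert_of_mem hj))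

lemma many_pow (i : ι) (n : ℕ) : g i ^ n ∈ Pol F g n := by
  simpa using many_prod (F := F) (range n) fun _ _ => many_gen (g := g) i

lemma many_map {B κ : Type} [CommRing B] [Algebra F B] (φ : A →ₐ[F] B) {g' : κ → B} (ρ : ι → κ)
    (e : ∀ i, φ (g i) = g' (ρ i)) (h : x ∈ Pol F g n) : φ x ∈ Pol F g' n := by
  obtain ⟨P, a, rfl⟩ := many_mem.1 h
  refine many_mem.2 ⟨P.rename ρ, (MvPolynomial.totalDegree_rename_le ρ P).trans a, ?_⟩
  rw [MvPolynomial.aeval_rename, ← AlgHom.comp_apply, MvPolynomial.comp_aeval]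
  congr 2
  exact funext fun i => (e i).symm

lemma many_fin [Finite ι] : Module.Finite F (Pol F g n) := Module.Finite.map _ _

lemma many_isAlg {B κ : Type} [CommRing B] [Algebra F B] (φ : A →ₐ[F] B)
    (hφ : Function.Injective φ) {v : κ → B}
    (e : ∀ i, φ (g i) ∈ Algebra.adjoin F (Set.range v))
    (h : IsAlgebraic (Algebra.adjoin F (Set.range g)) x) :
    IsAlgebraic (Algebra.adjoin F (Set.range v)) (φ x) := by
  have le : ∀ z : Algebra.adjoin F (Set.range g), φ z ∈ Algebra.adjoin F (Set.range v) :=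
    fun z => (Algebra.adjoin_le (S := (Algebra.adjoin F (Set.range v)).comap φ)
      (Set.range_subset_iff.2 e)) z.2
  exact h.ringHom_of_comp_eq
    ((φ.comp (Algebra.adjoin F (Set.range g)).val).codRestrict _ le) φ
    (fun a b c => Subtype.ext (hφ (congrArg Subtype.val c))) rfl

end Pol

section Q
variable {K : Type} [Field K] [Algebra ℂ K] {F : IntermediateField ℂ K} {ι : Type} {N : ℕ}
  {g : Fin N → K} {c m n : ℕ} {x y : PW ι K}

/-- The degrees of the coefficients grow linearly. -/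
def ManyQ (F : IntermediateField ℂ K) (g : Fin N → K) (c n : ℕ) (x : PW ι K) : Prop :=
  ∀ m, coeff m x ∈ Pol F g (n + c * m.degree)

namespace ManyQ

lemma mono (h : ManyQ F g c m x) (e : m ≤ n) : ManyQ F g c n x :=
  fun k => many_mono (h k) (by omega)

lemma add (h : ManyQ F g c n x) (h' : ManyQ F g c n y) : ManyQ F g c n (x + y) :=
  fun k => by rw [map_add]; exact add_mem (h k) (h' k)

lemma mul (h : ManyQ F g c m x) (h' : ManyQ F g c n y) : ManyQ F g c (m + n) (x * y) := by
  classical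
  intro k
  rw [coeff_mul]
  refine sum_mem fun p hp => many_mono (many_mul (h p.1) (h' p.2)) (le_of_eq ?_)
  rw [← mem_antidiagonal.1 hp, map_add]
  ring

lemma ofF (h : ∀ m, coeff m x ∈ F) : ManyQ F g c n x := fun k => many_alg (F := F) ⟨_, h k⟩

lemma const {a : K} (h : a ∈ Pol F g n) : ManyQ F g c n (C a : PW ι K) := by
  classical
  intro k
  rw [coeff_C]
  split_ifs
  · exact many_mono h (by omega)
  · exact zero_mem _

lemma prod {κ : Type} (s : Finset κ) {x : κ → PW ι K} {n : κ → ℕ}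
    (h : ∀ i ∈ s, ManyQ F g c (n i) (x i)) : ManyQ F g c (∑ i ∈ s, n i) (∏ i ∈ s, x i) := by
  classical
  induction s using Finset.induction_on with
  | empty => simpa using const (ι := ι) (c := c) (many_alg (g := g) (n := 0) (1 : F))
  | insert i s hi ih =>
    rw [prod_insert hi, sum_insert hi]
    exact (h i (mem_insert_self _ _)).mul (ih fun j hj => h j (mem_insert_of_mem hj))

lemma pow (h : ManyQ F g c n x) (k : ℕ) : ManyQ F g c (k * n) (x ^ k) := by
  simpa using prod (range k) fun _ _ => h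

lemma aev {κ : Type} {x : κ → PW ι K} (h : ∀ i, ManyQ F g c 1 (x i)) (P : MvPolynomial κ ℂ) :
    ∃ n, ManyQ F g c n (MvPolynomial.aeval x P) := by
  induction P using MvPolynomial.induction_on with
  | C a =>
    rw [MvPolynomial.aeval_C, MvPowerSeries.algebraMap_apply]
    exact ⟨0, const (many_alg (F := F) ⟨_, F.algebraMap_mem a⟩)⟩
  | add p q hp hq =>
    obtain ⟨a, ha⟩ := hp
    obtain ⟨b, hb⟩ := hq
    rw [map_add]
    exact ⟨a + b, (ha.mono (by omega)).add (hb.mono (by omega))⟩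
  | mul_X p i hp =>
    obtain ⟨a, ha⟩ := hp
    rw [map_mul, MvPolynomial.aeval_X]
    exact ⟨_, ha.mul (h i)⟩

lemma tay {s s' : ℕ} {d : Fin s → Derivation ℂ K K} {j : Fin s'}
    {T : K →+* PW (Fin s' × Fin s) K} (hT : Tay (dj d j) T) (hs : Stab F d g c) {a : K}
    (h : a ∈ Pol F g n) : ManyQ F g c n (T a) := fun k => by
  have := hT.ind (fun i => (Pol F g (n + c * i)).restrictScalars ℂ) (fun i q x hx => by
    rw [dj]
    split_ifs
    · exact many_mono (hs q.2 _ x hx) (le_of_eq (by ring))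
    · exact zero_mem _) 0 a h k
  rwa [zero_add] at this

end ManyQ

lemma many_cF {κ : Type} (s : Finset κ) {x : κ → PW ι K} (h : ∀ i m, coeff m (x i) ∈ F)
    (e : κ → ℕ) : ∀ m, coeff m (∏ i ∈ s, x i ^ e i) ∈ F := by
  classical
  have mul : ∀ x y : PW ι K, (∀ m, coeff m x ∈ F) → (∀ m, coeff m y ∈ F) →
      ∀ m, coeff m (x * y) ∈ F := fun x y a b m => by
    rw [coeff_mul]; exact sum_mem fun p _ => mul_mem (a _) (b _)
  have one : ∀ m, coeff m (1 : PW ι K) ∈ F := fun m => by
    rw [coeff_one]; split_ifs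
    exacts [one_mem _, zero_mem _]
  exact prod_induction _ (fun x : PW ι K => ∀ m, coeff m x ∈ F) mul one fun i _ =>
    Submonoid.pow_mem ⟨⟨{x | ∀ m, coeff m x ∈ F}, fun {x y} => mul x y⟩, one⟩ (h i) _

/-- A ring homomorphism that is the identity on `F`. -/
noncomputable def manyHom (T : K →+* PW ι K) (h : ∀ x ∈ F, T x = C x) : K →ₐ[F] PW ι K :=
  { T with commutes' := fun x => h x x.2 }

lemma many_aev {R κ : Type} [CommRing R] [IsDomain R] [Algebra F R] [Algebra R (PW ι K)]
    [IsScalarTower F R (PW ι K)] {x : κ → PW ι K} (h : ∀ i, IsAlgebraic R (x i))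
    (P : MvPolynomial κ ℂ) : IsAlgebraic R (MvPolynomial.aeval x P) := by
  induction P using MvPolynomial.induction_on with
  | C a =>
    rw [MvPolynomial.aeval_C, IsScalarTower.algebraMap_apply ℂ F, IsScalarTower.algebraMap_apply F R]
    exact isAlgebraic_algebraMap _
  | add p q hp hq => rw [map_add]; exact hp.add hq
  | mul_X p i hp => rw [map_mul, MvPolynomial.aeval_X]; exact hp.mul (h i)

end Q

section Geo
variable {t a M : ℕ} {K : Type} [Field K] [Algebra ℂ K] {w : Fin M → Option (Fin t)}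
  {Θ : Pt t a → Fin M → ℂ} {PP : PT M t a} {u : Fin M → K} {F : IntermediateField ℂ K}

lemma many_RF {κ : Type} {x : κ → K} {V : ValuationSubring K} (h1 : ∀ c ∈ F, c ∈ V)
    (h2 : ∀ i, x i ∈ V) : ∀ h ∈ RF F x, h ∈ V := fun h hh => by
  induction hh using Algebra.adjoin_induction with
  | mem u h => obtain ⟨i, rfl⟩ := h; exact h2 i
  | algebraMap c => exact h1 _ c.2
  | add _ _ _ _ a b => exact add_mem a b
  | mul _ _ _ _ a b => exact mul_mem a b

lemma many_pres {s : ℕ} {lam : Fin s → Pt t a} {d : Fin s → Derivation ℂ K K} {f : Fin s → K}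
    (bx : BX w Θ PP u F lam d f) {β : Cht M t} (ch : Ch w β u) (l : Fin s) :
    ∀ h ∈ RF F (co β u), d l h ∈ RF F (co β u) := fun h hh => by
  have c0 : ∀ c, algebraMap ℂ K c ∈ RF F (co β u) := fun c =>
    (RF F (co β u)).algebraMap_mem ⟨_, F.algebraMap_mem c⟩
  induction hh using Algebra.adjoin_induction with
  | mem u h =>
    obtain ⟨i, rfl⟩ := h
    rw [bx.vel l β ch]
    refine sum_mem fun i' _ => mul_mem (c0 _) ?_
    induction PP β i' i using MvPolynomial.induction_on with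
    | C c => rw [MvPolynomial.aeval_C]; exact c0 c
    | add p q hp hq => rw [map_add]; exact add_mem hp hq
    | mul_X p i hp =>
      rw [map_mul, MvPolynomial.aeval_X]; exact mul_mem hp (Algebra.subset_adjoin ⟨i, rfl⟩)
  | algebraMap c => exact (bx.cst _).1 c.2 l ▸ zero_mem _
  | add _ _ _ _ a b => rw [map_add]; exact add_mem a b
  | mul _ _ a' b' a b =>
    rw [Derivation.leibniz, smul_eq_mul, smul_eq_mul]; exact add_mem (mul_mem a' b) (mul_mem b' a)

/-- The twisting factor is a unit. -/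
lemma many_unit {ι : Type} {T : K →+* PW ι K} {l : Fin M → ℂ} {b : Fin M → PW ι K}
    (h : AddP Θ u F T l b) {S : Fin M → MvPolynomial (Fin M ⊕ Fin M) ℂ} {e e' : ℕ}
    (hS : IsSub Θ S e e') (h0 : sb S u (fun c => algebraMap ℂ K (Θ 0 c)) ≠ 0) {σ : PW ι K}
    (hσ : ∀ c, sb S (C ∘ u) b c = σ * T (u c)) : constantCoeff σ ≠ 0 := by
  intro e0
  obtain ⟨S', d, d', s1, s2⟩ := h.ne
  have l1 : ∑ c, l c • b c = 1 := mul_left_cancel₀ s2 (by
    rw [mul_one, mul_sum]
    exact sum_congr rfl fun c _ => by rw [mul_smul_comm, ← h.eq S' d d' s1 c])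
  have l0 : l ⬝ᵥ Θ 0 ≠ 0 := fun e => by
    have := congrArg constantCoeff l1
    simp [map_sum, Algebra.smul_def, h.zero, e] at this
  refine h0 (funext fun c => ?_)
  have := congrArg constantCoeff (hσ c)
  rw [map_mul, e0, zero_mul, sb, MvPolynomial.map_aeval] at this
  have e2 := GKsubAux.scale (hS.1 c) 1 (algebraMap ℂ K (l ⬝ᵥ Θ 0)⁻¹) u
    fun c => algebraMap ℂ K (Θ 0 c)
  refine (mul_eq_zero.1 (e2.symm.trans (Eq.trans ?_ this))).resolve_left (by simp [l0])
  rw [MvPolynomial.aeval_def, MvPolynomial.coe_eval₂Hom]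
  congr 1
  ext (x | x) <;> simp [h.zero, div_eq_inv_mul]

end Geo

end Pool.Agent.MP_c69980_ag.H43
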